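import Pool.Agent.H24.UG.T4
import Pool.Agent.H88.AG.A1

/-!
UNIFORM LOCAL GAP (`MP_c59857_nt`): row UA1, the inequality for the conditional variances, fixed
modulus (adapted from row A1).
-/

set_option autoImplicit false

open MeasureTheory ProbabilityTheory Filter Topology Finset
open scoped Nat ENNReal

namespace Pool.Agent.H37.UG

open Pool.Agent.H24.T2 (Pset)
open Pool.Agent.H67.AG (avgP ul Inv Rt Av SA kap JJ TT InvZ nxt triv tow XN PN TN XX PX TX prX Fac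
  Tup dl Dlt Mis bd κ₀ Sw SwE)
open Pool.Agent.H24.UG
open Pool.Agent.H88.AG (off_diag ptw avgP_mono avgP_bd pre_dvd set_shift dvd_pred int_bd pairs_le)

/-! ### the functions -/

theorem Db_meas (c : CxE) (i : Fin c.k) : Measurable (c.Db i) := by
  unfold CxE.Db
  exact measurable_const.max (measurable_const.min
    (stronglyMeasurable_condExp.mono (tow c.μ c.T (c.k - 1)).2).measurable)

theorem Db_bd (c : CxE) (i : Fin c.k) (x : c.X) : |c.Db i x| ≤ 1 := by
  unfold CxE.Db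
  rw [abs_le]
  exact ⟨le_max_left _ _, max_le (by norm_num) (min_le_left _ _)⟩

theorem aa_meas (c : CxE) (i : Fin c.k) : Measurable (c.aa i) := by
  unfold CxE.aa
  exact measurable_const.sub ((Db_meas c i).pow_const 2)

theorem aa_nn (c : CxE) (i : Fin c.k) (x : c.X) : 0 ≤ c.aa i x := by
  unfold CxE.aa
  have h1 := sq_le_one_iff_abs_le_one (c.Db i x) |>.2 (Db_bd c i x)
  linarith

theorem aa_bd (c : CxE) (i : Fin c.k) (x : c.X) : |c.aa i x| ≤ 1 := by
  unfold CxE.aa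
  have h1 := sq_le_one_iff_abs_le_one (c.Db i x) |>.2 (Db_bd c i x)
  rw [abs_le]
  exact ⟨by linarith, by nlinarith [sq_nonneg (c.Db i x)]⟩

theorem ce_bd (c : CxE) (i : Fin c.k) (Z : SA c.X) :
    ∀ᵐ x ∂c.μ, |(c.μ[c.aa i | Z.1]) x| ≤ 1 :=
  ae_bdd_abs_condExp_of_ae_bdd_abs (Eventually.of_forall fun x => aa_bd c i x)

theorem ce_meas (c : CxE) (i : Fin c.k) (Z : SA c.X) :
    AEStronglyMeasurable (c.μ[c.aa i | Z.1]) c.μ := integrable_condExp.aestronglyMeasurable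

theorem ce_mul_int (c : CxE) (i j : Fin c.k) (Z : SA c.X) :
    Integrable (fun x => (c.μ[c.aa i | Z.1]) x * (c.μ[c.aa j | Z.1]) x) c.μ := by
  refine int_bd ((ce_meas c i Z).mul (ce_meas c j Z)) 1 ?_
  filter_upwards [ce_bd c i Z, ce_bd c j Z] with x h1 h2
  rw [abs_mul]
  exact mul_le_one₀ h1 (abs_nonneg _) h2

theorem V_sq_int (c : CxE) (Z : SA c.X) (I : Finset (Fin c.k)) :
    Integrable (fun x => c.VI Z.1 I x ^ 2) c.μ := by
  have h4 : (fun x => c.VI Z.1 I x ^ 2) = fun x => ∑ i ∈ I, ∑ j ∈ I,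
      (c.μ[c.aa i | Z.1]) x * (c.μ[c.aa j | Z.1]) x := by
    funext x
    unfold CxE.VI
    rw [sq, Finset.sum_mul_sum]
  rw [h4]
  exact integrable_finsetSum _ fun i _ => integrable_finsetSum _ fun j _ => ce_mul_int c i j Z

theorem V_sq (c : CxE) (Z : SA c.X) (I : Finset (Fin c.k)) (A : Set c.X) :
    ∑ i ∈ I, ∑ j ∈ I.erase i,
      ∫ x in A, (c.μ[c.aa i | Z.1]) x * (c.μ[c.aa j | Z.1]) x ∂c.μ ≤
      ∫ x in A, c.VI Z.1 I x ^ 2 ∂c.μ := by
  have h1 : ∀ i j : Fin c.k, Integrable (fun x => (c.μ[c.aa i | Z.1]) x * (c.μ[c.aa j | Z.1]) x)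
      (c.μ.restrict A) := fun i j => (ce_mul_int c i j Z).mono_measure Measure.restrict_le_self
  have h2 : ∑ i ∈ I, ∑ j ∈ I.erase i,
      ∫ x in A, (c.μ[c.aa i | Z.1]) x * (c.μ[c.aa j | Z.1]) x ∂c.μ =
      ∫ x in A, ∑ i ∈ I, ∑ j ∈ I.erase i,
        (c.μ[c.aa i | Z.1]) x * (c.μ[c.aa j | Z.1]) x ∂c.μ := by
    rw [integral_finsetSum _ fun i _ => integrable_finsetSum _ fun j _ => h1 i j]
    refine Finset.sum_congr rfl fun i _ => ?_
    rw [integral_finsetSum _ fun j _ => h1 i j]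
  rw [h2]
  refine integral_mono (integrable_finsetSum _ fun i _ => integrable_finsetSum _ fun j _ =>
    h1 i j) ((V_sq_int c Z I).mono_measure Measure.restrict_le_self) fun x => ?_
  simp only
  rw [off_diag (fun i => (c.μ[c.aa i | Z.1]) x) I]
  unfold CxE.VI
  have : 0 ≤ ∑ i ∈ I, (c.μ[c.aa i | Z.1]) x ^ 2 := Finset.sum_nonneg fun i _ => sq_nonneg _
  linarith

theorem V_int (c : CxE) (Z : SA c.X) (I : Finset (Fin c.k))
    (A : Set c.X) (hA : MeasurableSet[Z.1] A) :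
    ∫ x in A, c.VI Z.1 I x ∂c.μ = ∑ i ∈ I, ∫ x in A, c.aa i x ∂c.μ := by
  unfold CxE.VI
  rw [integral_finsetSum _ fun i _ => integrable_condExp.mono_measure Measure.restrict_le_self]
  refine Finset.sum_congr rfl fun i _ => ?_
  exact setIntegral_condExp Z.2
    (int_bd (aa_meas c i).aestronglyMeasurable 1 (Eventually.of_forall (aa_bd c i))) hA

/-- the integrated inequality for one prime -/
theorem one_p0 (c : CxE) (W : ℕ) (I : Finset (Fin c.k)) (A : Set c.X) (hA : MeasurableSet A)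
    (hAW : c.T^[W] ⁻¹' A = A) (m p : ℕ) (hp : p ∈ Pset W m) (σ : ℝ) (hσ : σ = 1 ∨ σ = -1) :
    σ * ∫ x in A, ∏ i, c.Db i (c.T^[(p - 1) * c.β i] x) ∂c.μ ≤
      (c.μ.real A - (1 / 2) * ∑ i ∈ I, ∫ x in A, c.aa i x ∂c.μ) +
      (1 / 4) * ∑ q ∈ I.sigma (fun i => I.erase i),
        ∫ x, A.indicator (fun _ => (1 : ℝ)) x * c.aa q.1 (c.T^[(p - 1) * c.β q.1] x) *
          c.aa q.2 (c.T^[(p - 1) * c.β q.2] x) ∂c.μ := by
  have hT := c.erg.toMeasurePreserving
  have hm : ∀ n : ℕ, Measurable (c.T^[n]) := fun n => (hT.iterate n).measurable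
  have hS : ∀ i : Fin c.k, ∫ x in A, c.aa i x ∂c.μ =
      ∫ x in A, c.aa i (c.T^[(p - 1) * c.β i] x) ∂c.μ := fun i =>
    (set_shift hT hA (pre_dvd hAW (Dvd.dvd.mul_right (dvd_pred hp) _)) (aa_meas c i)).symm
  have hi1 : ∀ i : Fin c.k, Integrable (fun x => c.aa i (c.T^[(p - 1) * c.β i] x))
      (c.μ.restrict A) := fun i =>
    int_bd ((aa_meas c i).comp (hm _)).aestronglyMeasurable 1
      (Eventually.of_forall fun x => aa_bd c i _)
  have hi2 : ∀ i j : Fin c.k, Integrable (fun x => c.aa i (c.T^[(p - 1) * c.β i] x) *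
      c.aa j (c.T^[(p - 1) * c.β j] x)) (c.μ.restrict A) := fun i j =>
    int_bd (((aa_meas c i).comp (hm _)).mul ((aa_meas c j).comp (hm _))).aestronglyMeasurable 1
      (Eventually.of_forall fun x => by
        rw [abs_mul]
        exact mul_le_one₀ (aa_bd c i _) (abs_nonneg _) (aa_bd c j _))
  have hI : ∀ i j : Fin c.k, ∫ x, A.indicator (fun _ => (1 : ℝ)) x *
      c.aa i (c.T^[(p - 1) * c.β i] x) * c.aa j (c.T^[(p - 1) * c.β j] x) ∂c.μ =
      ∫ x in A, c.aa i (c.T^[(p - 1) * c.β i] x) * c.aa j (c.T^[(p - 1) * c.β j] x) ∂c.μ := by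
    intro i j
    rw [← integral_indicator hA]
    refine integral_congr_ae (Eventually.of_forall fun x => ?_)
    by_cases hx : x ∈ A
    · simp [hx]
    · simp [hx]
  have hprod : Integrable (fun x => ∏ i, c.Db i (c.T^[(p - 1) * c.β i] x)) (c.μ.restrict A) := by
    refine int_bd (Finset.measurable_prod _ fun i _ =>
      (Db_meas c i).comp (hm _)).aestronglyMeasurable 1 (Eventually.of_forall fun x => ?_)
    rw [Finset.abs_prod]
    exact Finset.prod_le_one (fun i _ => abs_nonneg _) fun i _ => Db_bd c i _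
  rw [← integral_const_mul]
  have hR : (c.μ.real A - (1 / 2) * ∑ i ∈ I, ∫ x in A, c.aa i x ∂c.μ) +
      (1 / 4) * ∑ q ∈ I.sigma (fun i => I.erase i),
        ∫ x, A.indicator (fun _ => (1 : ℝ)) x * c.aa q.1 (c.T^[(p - 1) * c.β q.1] x) *
          c.aa q.2 (c.T^[(p - 1) * c.β q.2] x) ∂c.μ =
      ∫ x in A, (1 - (1 / 2) * ∑ i ∈ I, c.aa i (c.T^[(p - 1) * c.β i] x) +
        (1 / 4) * ∑ i ∈ I, ∑ j ∈ I.erase i, c.aa i (c.T^[(p - 1) * c.β i] x) *
          c.aa j (c.T^[(p - 1) * c.β j] x)) ∂c.μ := by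
    have e1 : Integrable (fun x => ∑ i ∈ I, c.aa i (c.T^[(p - 1) * c.β i] x))
        (c.μ.restrict A) := integrable_finsetSum _ fun i _ => hi1 i
    have e2 : Integrable (fun x => ∑ i ∈ I, ∑ j ∈ I.erase i,
        c.aa i (c.T^[(p - 1) * c.β i] x) * c.aa j (c.T^[(p - 1) * c.β j] x))
        (c.μ.restrict A) := integrable_finsetSum _ fun i _ =>
          integrable_finsetSum _ fun j _ => hi2 i j
    have e4 : ∫ x in A, (1 - (1 / 2) * ∑ i ∈ I, c.aa i (c.T^[(p - 1) * c.β i] x) +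
        (1 / 4) * ∑ i ∈ I, ∑ j ∈ I.erase i, c.aa i (c.T^[(p - 1) * c.β i] x) *
          c.aa j (c.T^[(p - 1) * c.β j] x)) ∂c.μ =
        (∫ x in A, (1 : ℝ) ∂c.μ - (1 / 2) * ∫ x in A, ∑ i ∈ I,
          c.aa i (c.T^[(p - 1) * c.β i] x) ∂c.μ) +
        (1 / 4) * ∫ x in A, ∑ i ∈ I, ∑ j ∈ I.erase i, c.aa i (c.T^[(p - 1) * c.β i] x) *
          c.aa j (c.T^[(p - 1) * c.β j] x) ∂c.μ := by
      rw [← integral_const_mul, ← integral_const_mul,
        ← integral_sub (integrable_const _) (e1.const_mul _)]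
      exact integral_add ((integrable_const _).sub (e1.const_mul _)) (e2.const_mul _)
    rw [e4, integral_finsetSum _ fun i _ => hi1 i,
      integral_finsetSum _ fun i _ => integrable_finsetSum _ fun j _ => hi2 i j,
      Finset.sum_sigma]
    have e3 : ∫ x in A, (1 : ℝ) ∂c.μ = c.μ.real A := by
      rw [integral_const, smul_eq_mul, mul_one, Measure.real, Measure.restrict_apply_univ,
        Measure.real]
    rw [e3]
    congr 1
    · congr 2
      exact Finset.sum_congr rfl fun i _ => hS i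
    · congr 1
      refine Finset.sum_congr rfl fun i _ => ?_
      rw [integral_finsetSum _ fun j _ => hi2 i j]
      exact Finset.sum_congr rfl fun j _ => hI i j
  rw [hR]
  refine integral_mono (hprod.const_mul _) ?_ fun x => ?_
  · exact ((integrable_const _).sub ((integrable_finsetSum _ fun i _ => hi1 i).const_mul _)).add
      ((integrable_finsetSum _ fun i _ => integrable_finsetSum _ fun j _ => hi2 i j).const_mul _)
  · exact ptw σ hσ (fun i => c.Db i (c.T^[(p - 1) * c.β i] x)) (fun i => Db_bd c i _) I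

/-- the integrated inequality for one prime, with the weight -/
theorem one_p (c : CxE) (W : ℕ) (I : Finset (Fin c.k)) (A : Set c.X) (hA : MeasurableSet A)
    (hAW : c.T^[W] ⁻¹' A = A) (m p : ℕ) (hp : p ∈ Pset W m) :
    c.σ p * ∫ x in A, ∏ i, c.Db i (c.T^[(p - 1) * c.β i] x) ∂c.μ ≤
      |c.σ p| * (c.μ.real A - (1 / 2) * ∑ i ∈ I, ∫ x in A, c.aa i x ∂c.μ) +
      (1 / 4) * ∑ q ∈ I.sigma (fun i => I.erase i),
        ∫ x, A.indicator (fun _ => (1 : ℝ)) x * c.aa q.1 (c.T^[(p - 1) * c.β q.1] x) *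
          c.aa q.2 (c.T^[(p - 1) * c.β q.2] x) ∂c.μ := by
  rcases c.σv p with h | h
  · rw [h, zero_mul, abs_zero, zero_mul, zero_add]
    refine mul_nonneg (by norm_num) (Finset.sum_nonneg fun q _ => integral_nonneg fun x => ?_)
    refine mul_nonneg (mul_nonneg ?_ (aa_nn c _ _)) (aa_nn c _ _)
    exact Set.indicator_nonneg (fun _ _ => zero_le_one) x
  · have h1 : |c.σ p| = 1 := by
      rcases h with h | h <;> rw [h] <;> norm_num
    rw [h1, one_mul]
    exact one_p0 c W I A hA hAW m p hp (c.σ p) h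

theorem avgP_lin' {W m : ℕ} {ι : Type} (s : Finset ι) (a : ℝ) (τ : ℕ → ℝ)
    (G : ι → ℕ → ℝ) :
    avgP W m (fun p => τ p * a + (1 / 4) * ∑ q ∈ s, G q p) =
      a * avgP W m τ + (1 / 4) * ∑ q ∈ s, avgP W m (G q) := by
  unfold avgP
  rw [Finset.sum_add_distrib, ← Finset.sum_mul, ← Finset.mul_sum,
    Finset.sum_comm, ← Finset.sum_div]
  ring

theorem pf_UA1 (hul : Pool.Agent.H67.AG.T_UL) (_hpn : Pool.Agent.H67.AG.T_PN)
    (hpi : Pool.Agent.H67.AG.T_PI) (ha0 : T_UA0) : T_UA1 := by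
  intro c hk w I A hw hγ hA
  have hT := c.erg.toMeasurePreserving
  obtain ⟨hA1, hA2⟩ := MeasurableSpace.measurableSet_invariants.1 hA
  have hWpos : 0 < c.W w := Nat.mul_pos c.Qpos (Nat.factorial_pos w)
  have hwW : w ! ∣ c.W w := Dvd.intro_left _ rfl
  let Z : SA c.X := ⟨Pool.Agent.H67.AG.Inv c.T (c.W w), MeasurableSpace.invariants_le _⟩
  obtain ⟨-, hmono, hadd, hsmul, hconst⟩ := hul (c.U w)
  -- the quantities
  set dlt : Fin c.k → ℝ := fun i => ∫ x, |(c.μ[c.aa i | Inv c.T (c.W w * Dlt c.β)]) x -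
      (c.μ[c.aa i | Inv c.T (c.W w)]) x| ∂c.μ with hdlt
  have hdlt0 : ∀ i, 0 ≤ dlt i := fun i => integral_nonneg fun x => abs_nonneg _
  set ps : c.X → ℝ := A.indicator fun _ => (1 : ℝ) with hps
  have hps01 : ∀ x, 0 ≤ ps x ∧ ps x ≤ 1 := fun x => by
    rw [hps]
    by_cases hx : x ∈ A
    · simp [hx]
    · simp [hx]
  have hpsm : Measurable[Inv c.T (c.W w)] ps :=
    Measurable.indicator (m := Pool.Agent.H67.AG.Inv c.T (c.W w)) measurable_const hA
  have hD0 : 0 < Dlt c.β := by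
    unfold Dlt
    refine Finset.prod_pos fun i _ => Finset.prod_pos fun j _ => ?_
    split_ifs with h
    · exact Nat.one_pos
    · have : ((c.β i : ℤ) - c.β j) ≠ 0 := by
        intro h2
        exact h (by exact_mod_cast sub_eq_zero.1 h2)
      exact Int.natAbs_pos.2 this
  have hDd : ∀ i j : Fin c.k, i ≠ j → ((c.β i : ℤ) - c.β j).natAbs ∣ Dlt c.β := by
    intro i j hij
    unfold Dlt
    have h1 : (if c.β i = c.β j then 1 else ((c.β i : ℤ) - c.β j).natAbs) =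
        ((c.β i : ℤ) - c.β j).natAbs := if_neg fun h => hij (c.inj h)
    have h2 := Finset.dvd_prod_of_mem
      (fun j => if c.β i = c.β j then 1 else ((c.β i : ℤ) - c.β j).natAbs) (Finset.mem_univ j)
    have h3 := Finset.dvd_prod_of_mem
      (fun i => ∏ j, if c.β i = c.β j then 1 else ((c.β i : ℤ) - c.β j).natAbs)
      (Finset.mem_univ i)
    rw [← h1]
    exact h2.trans h3
  -- the pairs
  have hE : ∀ i j : Fin c.k, ∫ x, ps x * (c.μ[c.aa i | Inv c.T (c.W w)]) x *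
      (c.μ[c.aa j | Inv c.T (c.W w)]) x ∂c.μ =
      ∫ x in A, (c.μ[c.aa i | Z.1]) x * (c.μ[c.aa j | Z.1]) x ∂c.μ := by
    intro i j
    rw [← integral_indicator hA1]
    refine integral_congr_ae (Eventually.of_forall fun x => ?_)
    by_cases hx : x ∈ A
    · simp [hps, hx, Z]
    · simp [hps, hx]
  have hd : ∀ i : Fin c.k, ∫ x, ps x * |(c.μ[c.aa i | Inv c.T (c.W w * Dlt c.β)]) x -
      (c.μ[c.aa i | Inv c.T (c.W w)]) x| ∂c.μ ≤ dlt i := by
    intro i
    have hint : Integrable (fun x => |(c.μ[c.aa i | Inv c.T (c.W w * Dlt c.β)]) x -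
        (c.μ[c.aa i | Inv c.T (c.W w)]) x|) c.μ :=
      (integrable_condExp.sub integrable_condExp).abs
    refine integral_mono_of_nonneg (Eventually.of_forall fun x =>
      mul_nonneg (hps01 x).1 (abs_nonneg _)) hint (Eventually.of_forall fun x => ?_)
    exact mul_le_of_le_one_left (abs_nonneg _) (hps01 x).2
  have hpsi : ∫ x, ps x ∂c.μ ≤ 1 := by
    rw [hps, integral_indicator hA1, integral_const, smul_eq_mul, mul_one,
      measureReal_restrict_apply MeasurableSet.univ, Set.univ_inter]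
    exact measureReal_le_one
  -- the main inequality
  have key : ∀ ε : ℝ, 0 < ε →
      dn (c.U w) (c.W w) c.σ * c.μ.real A -
        2 * Lm (c.U w) (c.W w) c.μ c.T c.β c.σ c.Dt A ≤
      (c.μ.real A - (1 / 2) * ∫ x in A, c.VI (Inv c.T (c.W w)) I x ∂c.μ) *
        dn (c.U w) (c.W w) c.σ +
      (1 / 4) * (∫ x in A, c.VI (Inv c.T (c.W w)) I x ^ 2 ∂c.μ +
        (c.k * ∑ i, dlt i + (c.k : ℝ) ^ 2 * (1 / w + ε))) := by
    intro ε hε
    have hpair : ∀ q : Fin c.k × Fin c.k, q.1 ≠ q.2 → ∀ᶠ m in (c.U w : Filter ℕ),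
        avgP (c.W w) m (fun p => ∫ x, ps x * c.aa q.1 (c.T^[(p - 1) * c.β q.1] x) *
          c.aa q.2 (c.T^[(p - 1) * c.β q.2] x) ∂c.μ) ≤
        ∫ x in A, (c.μ[c.aa q.1 | Z.1]) x * (c.μ[c.aa q.2 | Z.1]) x ∂c.μ +
          (dlt q.1 + (1 / w + ε)) := by
      intro q hq
      obtain ⟨m₀, hm₀⟩ := hpi c.X c.μ c.T w (c.W w) (c.β q.1) (c.β q.2) (Dlt c.β) ps
        (c.aa q.1) (c.aa q.2) ε hT hpsm hps01 (aa_meas c q.1) (aa_bd c q.1) (aa_meas c q.2)
        (aa_bd c q.2) hw hWpos hwW (fun h => hq (c.inj h)) (hDd q.1 q.2 hq) hD0 hε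
      refine ((eventually_ge_atTop m₀).filter_mono (c.hU w)).mono fun m hm => ?_
      have h1 := (abs_le.1 (hm₀ m hm)).2
      rw [hE q.1 q.2] at h1
      have h2 := hd q.1
      have h3 : 1 / (w : ℝ) * ∫ x, ps x ∂c.μ ≤ 1 / w :=
        mul_le_of_le_one_right (by positivity) hpsi
      linarith
    have hall : ∀ᶠ m in (c.U w : Filter ℕ), ∀ q : Fin c.k × Fin c.k, q.1 ≠ q.2 →
        avgP (c.W w) m (fun p => ∫ x, ps x * c.aa q.1 (c.T^[(p - 1) * c.β q.1] x) *
          c.aa q.2 (c.T^[(p - 1) * c.β q.2] x) ∂c.μ) ≤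
        ∫ x in A, (c.μ[c.aa q.1 | Z.1]) x * (c.μ[c.aa q.2 | Z.1]) x ∂c.μ +
          (dlt q.1 + (1 / w + ε)) := by
      rw [eventually_all]
      intro q
      by_cases hq : q.1 ≠ q.2
      · exact (hpair q hq).mono fun m hm _ => hm
      · exact Eventually.of_forall fun m h => absurd h hq
    have hV : ∫ x in A, c.VI (Inv c.T (c.W w)) I x ∂c.μ = ∑ i ∈ I, ∫ x in A, c.aa i x ∂c.μ :=
      V_int c Z I A hA
    rw [ha0 c hk w A hA]
    have hs1 : ∀ p, |c.σ p| ≤ 1 := fun p => by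
      rcases c.σv p with h | h | h <;> rw [h] <;> norm_num
    have hFb : ∀ m, |avgP (c.W w) m fun p => c.σ p *
        ∫ x in A, ∏ i, c.Db i (c.T^[(p - 1) * c.β i] x) ∂c.μ| ≤ 1 := by
      intro m
      refine avgP_bd zero_le_one fun p => ?_
      have h1 : ∀ x, ‖∏ i, c.Db i (c.T^[(p - 1) * c.β i] x)‖ ≤ 1 := fun x => by
        rw [Real.norm_eq_abs, Finset.abs_prod]
        exact Finset.prod_le_one (fun i _ => abs_nonneg _) fun i _ => Db_bd c i _
      have h2 := norm_setIntegral_le_of_norm_le_const (μ := c.μ) (s := A)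
        (measure_lt_top c.μ A) (fun x _ => h1 x)
      rw [Real.norm_eq_abs] at h2
      have h3 : |∫ x in A, ∏ i, c.Db i (c.T^[(p - 1) * c.β i] x) ∂c.μ| ≤ 1 := by
        refine h2.trans ?_
        rw [one_mul]
        exact measureReal_le_one
      rw [abs_mul]
      exact mul_le_one₀ (hs1 p) (abs_nonneg _) h3
    have hsb : ∀ m, |avgP (c.W w) m (fun p => |c.σ p|)| ≤ 1 := fun m =>
      avgP_bd zero_le_one fun p => by rw [abs_abs]; exact hs1 p
    set aV : ℝ := c.μ.real A - (1 / 2) * ∫ x in A, c.VI (Inv c.T (c.W w)) I x ∂c.μ with haV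
    set bV : ℝ := (1 / 4) * (∫ x in A, c.VI (Inv c.T (c.W w)) I x ^ 2 ∂c.μ +
        (c.k * ∑ i, dlt i + (c.k : ℝ) ^ 2 * (1 / w + ε))) with hbV
    have hR : ul (c.U w) (fun m => aV * avgP (c.W w) m (fun p => |c.σ p|) + bV) =
        aV * dn (c.U w) (c.W w) c.σ + bV := by
      rw [hadd _ _ ⟨|aV| * 1, fun m => by
        rw [abs_mul]
        exact mul_le_mul_of_nonneg_left (hsb m) (abs_nonneg _)⟩ ⟨_, fun _ => le_rfl⟩,
        hsmul _ aV ⟨1, hsb⟩, hconst]
      rfl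
    rw [← hR]
    refine hmono _ _ ⟨1, hFb⟩ ⟨|aV| * 1 + |bV|, fun m => ?_⟩ ?_
    · refine (abs_add_le _ _).trans (add_le_add ?_ le_rfl)
      rw [abs_mul]
      exact mul_le_mul_of_nonneg_left (hsb m) (abs_nonneg _)
    filter_upwards [hall] with m hm1
    refine (avgP_mono fun p hp => one_p c (c.W w) I A hA1 hA2 m p hp).trans ?_
    have hav := avgP_lin' (W := c.W w) (m := m) (I.sigma fun i => I.erase i)
      (c.μ.real A - (1 / 2) * ∑ i ∈ I, ∫ x in A, c.aa i x ∂c.μ) (fun p => |c.σ p|)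
      (fun (q : (_ : Fin c.k) × Fin c.k) p => ∫ x, A.indicator (fun _ => (1 : ℝ)) x *
        c.aa q.1 (c.T^[(p - 1) * c.β q.1] x) * c.aa q.2 (c.T^[(p - 1) * c.β q.2] x) ∂c.μ)
    rw [hav, ← hV, ← haV, hbV]
    have hS1 : ∑ q ∈ I.sigma (fun i => I.erase i), avgP (c.W w) m (fun p =>
        ∫ x, A.indicator (fun _ => (1 : ℝ)) x * c.aa q.1 (c.T^[(p - 1) * c.β q.1] x) *
          c.aa q.2 (c.T^[(p - 1) * c.β q.2] x) ∂c.μ) ≤
        ∑ q ∈ I.sigma (fun i => I.erase i),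
          (∫ x in A, (c.μ[c.aa q.1 | Z.1]) x * (c.μ[c.aa q.2 | Z.1]) x ∂c.μ +
            (dlt q.1 + (1 / w + ε))) := by
      refine Finset.sum_le_sum fun q hq => hm1 (q.1, q.2) ?_
      have h1 := (Finset.mem_sigma.1 hq).2
      exact (Finset.ne_of_mem_erase h1).symm
    have hS2 : ∑ q ∈ I.sigma (fun i => I.erase i),
          (∫ x in A, (c.μ[c.aa q.1 | Z.1]) x * (c.μ[c.aa q.2 | Z.1]) x ∂c.μ +
            (dlt q.1 + (1 / w + ε))) ≤ ∫ x in A, c.VI (Inv c.T (c.W w)) I x ^ 2 ∂c.μ +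
        (c.k * ∑ i, dlt i + (c.k : ℝ) ^ 2 * (1 / w + ε)) := by
      rw [Finset.sum_add_distrib, Finset.sum_sigma]
      exact add_le_add (V_sq c Z I A) (pairs_le I dlt hdlt0 (1 / w + ε) (by positivity))
    linarith
  -- the end
  have hVi : Integrable (fun x => c.VI (Inv c.T (c.W w)) I x) (c.μ.restrict A) := by
    unfold CxE.VI
    exact integrable_finsetSum _ fun i _ =>
      integrable_condExp.mono_measure Measure.restrict_le_self
  have hVi2 : Integrable (fun x => c.VI (Inv c.T (c.W w)) I x ^ 2) (c.μ.restrict A) :=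
    (V_sq_int c Z I).mono_measure Measure.restrict_le_self
  rw [integral_sub (hVi.const_mul _) (hVi2.div_const 2), integral_div, integral_const_mul]
  have hV0 : 0 ≤ ∫ x in A, c.VI (Inv c.T (c.W w)) I x ∂c.μ := by
    have hV : ∫ x in A, c.VI (Inv c.T (c.W w)) I x ∂c.μ = ∑ i ∈ I, ∫ x in A, c.aa i x ∂c.μ :=
      V_int c Z I A hA
    rw [hV]
    exact Finset.sum_nonneg fun i _ => integral_nonneg fun x => aa_nn c i x
  have hgV := mul_le_mul_of_nonneg_right hγ hV0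
  refine le_of_forall_pos_le_add fun e he => ?_
  have hk2 : (0 : ℝ) < (c.k : ℝ) ^ 2 + 1 := by positivity
  have h1 := key (e / ((c.k : ℝ) ^ 2 + 1)) (div_pos he hk2)
  have h2 : (c.k : ℝ) ^ 2 * (e / ((c.k : ℝ) ^ 2 + 1)) ≤ e := by
    rw [← mul_div_assoc, div_le_iff₀ hk2]
    nlinarith
  have h3 : 0 ≤ (c.k : ℝ) * ∑ i, dlt i :=
    mul_nonneg (Nat.cast_nonneg _) (Finset.sum_nonneg fun i _ => hdlt0 i)
  have h4 : 0 ≤ (c.k : ℝ) ^ 2 / w := by positivity
  have h5 : (c.k : ℝ) ^ 2 * (1 / w + e / ((c.k : ℝ) ^ 2 + 1)) =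
      (c.k : ℝ) ^ 2 / w + (c.k : ℝ) ^ 2 * (e / ((c.k : ℝ) ^ 2 + 1)) := by ring
  rw [h5, sub_mul] at h1
  linarith

end Pool.Agent.H37.UG
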