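import Pool.Agent.H24.UG.T4
import Pool.Agent.H81.AG.A2

/-!
UNIFORM LOCAL GAP (`MP_c59857_nt`): row UA2, the inequalities for the conditional variances,
rational sets (adapted from row A2).
-/

set_option autoImplicit false

open MeasureTheory ProbabilityTheory Filter Topology Finset
open scoped Nat ENNReal

namespace Pool.Agent.H37.UG

open Pool.Agent.H24.T2 (Pset)
open Pool.Agent.H67.AG (avgP ul Inv Rt Av SA kap JJ TT InvZ nxt triv tow XN PN TN XX PX TX prX Fac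
  Tup dl Dlt Mis bd κ₀ Sw SwE)
open Pool.Agent.H24.UG
open Pool.Agent.H81.AG (inv_mono inv_le_rt rt_le dlt_pos int_of_bdd bd01)

theorem var_le (γ : ℝ) (g0 : 0 ≤ γ) (g1 : γ ≤ 1) {X : Type} [MeasurableSpace X] (μ : Measure X) [IsProbabilityMeasure μ] {k : ℕ}
    (u v : Fin k → X → ℝ) (hu : ∀ i, Integrable (u i) μ) (hv : ∀ i, Integrable (v i) μ)
    (hu01 : ∀ i, ∀ᵐ x ∂μ, 0 ≤ u i x ∧ u i x ≤ 1) (hv01 : ∀ i, ∀ᵐ x ∂μ, 0 ≤ v i x ∧ v i x ≤ 1)
    (I : Finset (Fin k)) (A : Set X) :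
    ∫ x in A, (γ * (∑ i ∈ I, u i x) - (∑ i ∈ I, u i x) ^ 2 / 2) ∂μ ≤
      ∫ x in A, (γ * (∑ i ∈ I, v i x) - (∑ i ∈ I, v i x) ^ 2 / 2) ∂μ +
        (1 + k) * ∑ i, ∫ x, |u i x - v i x| ∂μ := by
  have hs : ∀ (w : Fin k → X → ℝ), (∀ i, Integrable (w i) μ) →
      (∀ i, ∀ᵐ x ∂μ, 0 ≤ w i x ∧ w i x ≤ 1) →
      Integrable (fun x => γ * (∑ i ∈ I, w i x) - (∑ i ∈ I, w i x) ^ 2 / 2) μ ∧
        ∀ᵐ x ∂μ, 0 ≤ ∑ i ∈ I, w i x ∧ ∑ i ∈ I, w i x ≤ k := by
    intro w hw hw01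
    have hb : ∀ᵐ x ∂μ, 0 ≤ ∑ i ∈ I, w i x ∧ ∑ i ∈ I, w i x ≤ k := by
      filter_upwards [ae_all_iff.2 hw01] with x hx
      refine ⟨Finset.sum_nonneg fun i _ => (hx i).1, ?_⟩
      calc ∑ i ∈ I, w i x ≤ ∑ _i ∈ I, (1 : ℝ) := Finset.sum_le_sum fun i _ => (hx i).2
        _ = I.card := by rw [Finset.sum_const, nsmul_eq_mul, mul_one]
        _ ≤ k := by
          have := Finset.card_le_univ I
          rw [Fintype.card_fin] at this
          exact_mod_cast this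
    have hi : Integrable (fun x => ∑ i ∈ I, w i x) μ := integrable_finsetSum I fun i _ => hw i
    refine ⟨(hi.const_mul γ).sub ?_, hb⟩
    have h2 : Integrable (fun x => (∑ i ∈ I, w i x) ^ 2) μ := by
      refine Integrable.of_bound (hi.aestronglyMeasurable.pow 2) ((k : ℝ) ^ 2) ?_
      filter_upwards [hb] with x hx
      rw [Real.norm_eq_abs, abs_pow, abs_of_nonneg hx.1]
      exact pow_le_pow_left₀ hx.1 hx.2 2
    exact h2.div_const 2
  obtain ⟨iu, bu⟩ := hs u hu hu01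
  obtain ⟨iv, bv⟩ := hs v hv hv01
  have id : ∀ i, Integrable (fun x => |u i x - v i x|) μ := fun i => ((hu i).sub (hv i)).abs
  have isum : Integrable (fun x => ∑ i, |u i x - v i x|) μ :=
    integrable_finsetSum Finset.univ fun i _ => id i
  have ir : Integrable (fun x => (1 + (k : ℝ)) * ∑ i, |u i x - v i x|) μ := isum.const_mul _
  have hpt : ∀ᵐ x ∂μ, γ * (∑ i ∈ I, u i x) - (∑ i ∈ I, u i x) ^ 2 / 2 ≤
      (γ * (∑ i ∈ I, v i x) - (∑ i ∈ I, v i x) ^ 2 / 2) +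
        (1 + (k : ℝ)) * ∑ i, |u i x - v i x| := by
    filter_upwards [bu, bv] with x hx hx'
    have hd : |(∑ i ∈ I, u i x) - ∑ i ∈ I, v i x| ≤ ∑ i, |u i x - v i x| := by
      rw [← Finset.sum_sub_distrib]
      exact (Finset.abs_sum_le_sum_abs _ _).trans
        (Finset.sum_le_sum_of_subset_of_nonneg (Finset.subset_univ _) fun i _ _ => abs_nonneg _)
    set a := ∑ i ∈ I, u i x
    set b := ∑ i ∈ I, v i x
    have h3 : γ * a - a ^ 2 / 2 - (γ * b - b ^ 2 / 2) = (a - b) * (γ - (a + b) / 2) := by ring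
    have h4 : (a - b) * (γ - (a + b) / 2) ≤ |a - b| * (1 + k) := by
      refine (le_abs_self _).trans ?_
      rw [abs_mul]
      refine mul_le_mul_of_nonneg_left ?_ (abs_nonneg _)
      rw [abs_le]
      constructor <;> linarith [hx.1, hx.2, hx'.1, hx'.2]
    have h5 : |a - b| * (1 + k) ≤ (1 + (k : ℝ)) * ∑ i, |u i x - v i x| := by
      rw [mul_comm]
      exact mul_le_mul_of_nonneg_left hd (by positivity)
    linarith
  have h6 : ∫ x in A, (γ * (∑ i ∈ I, u i x) - (∑ i ∈ I, u i x) ^ 2 / 2) ∂μ ≤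
      ∫ x in A, ((γ * (∑ i ∈ I, v i x) - (∑ i ∈ I, v i x) ^ 2 / 2) +
        (1 + (k : ℝ)) * ∑ i, |u i x - v i x|) ∂μ :=
    integral_mono_ae iu.integrableOn (iv.add ir).integrableOn (ae_restrict_of_ae hpt)
  rw [integral_add iv.integrableOn ir.integrableOn] at h6
  have h7 : ∫ x in A, (1 + (k : ℝ)) * ∑ i, |u i x - v i x| ∂μ ≤
      ∫ x, (1 + (k : ℝ)) * ∑ i, |u i x - v i x| ∂μ :=
    setIntegral_le_integral ir (Filter.Eventually.of_forall fun x => by positivity)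
  have h8 : ∫ x, (1 + (k : ℝ)) * ∑ i, |u i x - v i x| ∂μ =
      (1 + k) * ∑ i, ∫ x, |u i x - v i x| ∂μ := by
    rw [integral_const_mul, integral_finsetSum _ fun i _ => id i]
  linarith

theorem part1 (h1 : T_UA1) (hle : T_ULE) (hra : Pool.Agent.H67.AG.T_RA)
    (hlv : Pool.Agent.H67.AG.T_LV) (c : CxE) (hk : 2 ≤ c.k) (I : Finset (Fin c.k)) :
    ∀ᵐ x ∂c.μ, x ∈ c.Y →
      c.γ * c.VI (Rt c.T) I x - c.VI (Rt c.T) I x ^ 2 / 2 ≤ 4 * c.e x := by
  have hmp : MeasurePreserving c.T c.μ c.μ := c.erg.toMeasurePreserving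
  have haam : ∀ i, Measurable (c.aa i) := by
    intro i
    unfold CxE.aa CxE.Db
    have hm : Measurable (c.μ[c.Dt i | (tow c.μ c.T (c.k - 1)).1]) :=
      (stronglyMeasurable_condExp.mono (tow c.μ c.T (c.k - 1)).2).measurable
    exact measurable_const.sub ((measurable_const.max (measurable_const.min hm)).pow_const 2)
  have haa0 : ∀ i x, 0 ≤ c.aa i x ∧ c.aa i x ≤ 1 := by
    intro i x
    unfold CxE.aa
    have h2 : -1 ≤ c.Db i x := le_max_left _ _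
    have h3 : c.Db i x ≤ 1 := max_le (by norm_num) (min_le_left _ _)
    constructor <;> nlinarith
  have hcb : ∀ m : MeasurableSpace c.X, m ≤ c.mX → ∀ i,
      ∀ᵐ x ∂c.μ, 0 ≤ (c.μ[c.aa i | m]) x ∧ (c.μ[c.aa i | m]) x ≤ 1 := fun m hm i =>
    @bd01 c.X m c.mX c.μ _ hm (c.aa i) (haam i) (fun x => (haa0 i x).1) (fun x => (haa0 i x).2)
  -- the errors tend to zero
  have herr : ∀ (i : Fin c.k) (D : ℕ), 0 < D → Tendsto (fun w => ∫ x,
      |(c.μ[c.aa i | Rt c.T]) x - (c.μ[c.aa i | Inv c.T (c.W w * D)]) x| ∂c.μ)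
      (c.V : Filter ℕ) (𝓝 0) := by
    intro i D hD
    refine Tendsto.mono_left ?_ c.hV
    rw [Metric.tendsto_atTop]
    intro ε hε
    obtain ⟨w₀, hw₀⟩ := hlv c.X c.μ c.T (c.aa i) (ε / 2) (haam i)
      ⟨1, fun x => by rw [abs_of_nonneg (haa0 i x).1]; exact (haa0 i x).2⟩ (by positivity)
    refine ⟨w₀, fun w hw => ?_⟩
    have h3 := hw₀ (c.W w * D)
      (Nat.mul_pos (Nat.mul_pos c.Qpos (Nat.factorial_pos w)) hD)
      (Dvd.dvd.mul_right (Dvd.dvd.mul_left (Nat.factorial_dvd_factorial hw) _) _)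
    rw [Real.dist_eq, sub_zero, abs_of_nonneg (integral_nonneg fun x => abs_nonneg _)]
    linarith
  have hVR : ∀ m : MeasurableSpace c.X, m ≤ c.mX →
      Integrable (fun x => c.γ * c.VI m I x - c.VI m I x ^ 2 / 2) c.μ := by
    intro m hm
    have h2 : Integrable (fun x => c.VI m I x) c.μ :=
      integrable_finsetSum I fun i _ => integrable_condExp
    refine (h2.const_mul c.γ).sub (Integrable.div_const ?_ 2)
    refine Integrable.of_bound (h2.aestronglyMeasurable.pow 2) ((c.k : ℝ) ^ 2) ?_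
    filter_upwards [ae_all_iff.2 (hcb m hm)] with x hx
    have h3 : 0 ≤ c.VI m I x := Finset.sum_nonneg fun i _ => (hx i).1
    have h4 : c.VI m I x ≤ c.k := by
      calc c.VI m I x ≤ ∑ _i ∈ I, (1 : ℝ) := Finset.sum_le_sum fun i _ => (hx i).2
        _ = I.card := by rw [Finset.sum_const, nsmul_eq_mul, mul_one]
        _ ≤ c.k := by
          have := Finset.card_le_univ I
          rw [Fintype.card_fin] at this
          exact_mod_cast this
    rw [Real.norm_eq_abs, abs_pow, abs_of_nonneg h3]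
    exact pow_le_pow_left₀ h3 h4 2
  have hem : Measurable c.e := c.em.mono (rt_le c.T) le_rfl
  have hei : Integrable c.e c.μ := int_of_bdd c.μ c.e hem (fun x => (c.e0 x).1) fun x => (c.e0 x).2
  have hRm : Measurable[Rt c.T] (fun x => c.VI (Rt c.T) I x) := by
    unfold CxE.VI
    exact Finset.measurable_fun_sum I fun i _ => stronglyMeasurable_condExp.measurable
  have hYQ : MeasurableSet[Inv c.T c.Q] c.Y :=
    MeasurableSpace.measurableSet_invariants.2 ⟨c.Ym, c.Yinv⟩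
  have key := hra c.X c.μ c.T c.Q
    (fun x => c.γ * c.VI (Rt c.T) I x - c.VI (Rt c.T) I x ^ 2 / 2 - 4 * c.e x) c.Y c.Qpos
    (((hRm.const_mul c.γ).sub ((hRm.pow_const 2).div_const 2)).sub (c.em.const_mul 4))
    ((hVR _ (rt_le c.T)).sub (hei.const_mul 4)) hYQ ?_
  · filter_upwards [key] with x hx hxY
    have := hx hxY
    linarith
  intro w₀ A hA hAY
  have hAR : MeasurableSet[Rt c.T] A :=
    inv_le_rt c.T (Nat.mul_pos c.Qpos (Nat.factorial_pos w₀)) A hA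
  have hAm : MeasurableSet A := rt_le c.T A hAR
  have hfac : Fac c.μ c.T c.μ c.T (id : c.X → c.X) := ⟨MeasurePreserving.id _, fun _ => rfl⟩
  have hLam := hle c c.X c.μ c.T id A hmp hfac hAR (by simpa using hAY)
  simp only [id] at hLam
  -- the right hand side
  have hRHS : Tendsto (fun w => 4 * Lm (c.U w) (c.W w) c.μ c.T c.β c.σ c.Dt A +
      c.k * ∑ i, (∫ x, |(c.μ[c.aa i | Rt c.T]) x -
        (c.μ[c.aa i | Inv c.T (c.W w * Dlt c.β)]) x| ∂c.μ +
        ∫ x, |(c.μ[c.aa i | Rt c.T]) x - (c.μ[c.aa i | Inv c.T (c.W w * 1)]) x| ∂c.μ) +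
      (c.k : ℝ) ^ 2 / w + (1 + c.k) * ∑ i, ∫ x, |(c.μ[c.aa i | Rt c.T]) x -
        (c.μ[c.aa i | Inv c.T (c.W w * 1)]) x| ∂c.μ) (c.V : Filter ℕ)
      (𝓝 (4 * ∫ x in A, c.e x ∂c.μ)) := by
    have e1 := hLam.const_mul 4
    have e2 : Tendsto (fun w => c.k * ∑ i, (∫ x, |(c.μ[c.aa i | Rt c.T]) x -
        (c.μ[c.aa i | Inv c.T (c.W w * Dlt c.β)]) x| ∂c.μ +
        ∫ x, |(c.μ[c.aa i | Rt c.T]) x - (c.μ[c.aa i | Inv c.T (c.W w * 1)]) x| ∂c.μ))
        (c.V : Filter ℕ) (𝓝 (c.k * ∑ _i : Fin c.k, ((0 : ℝ) + 0))) :=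
      (tendsto_finsetSum _ fun i _ =>
        (herr i (Dlt c.β) (dlt_pos c.β)).add (herr i 1 one_pos)).const_mul _
    have e3 : Tendsto (fun w : ℕ => (c.k : ℝ) ^ 2 / (w : ℝ)) (c.V : Filter ℕ) (𝓝 0) :=
      (tendsto_const_div_atTop_nhds_zero_nat ((c.k : ℝ) ^ 2)).mono_left c.hV
    have e4 : Tendsto (fun w => (1 + (c.k : ℝ)) * ∑ i, ∫ x, |(c.μ[c.aa i | Rt c.T]) x -
        (c.μ[c.aa i | Inv c.T (c.W w * 1)]) x| ∂c.μ) (c.V : Filter ℕ)
        (𝓝 ((1 + (c.k : ℝ)) * ∑ _i : Fin c.k, (0 : ℝ))) :=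
      (tendsto_finsetSum _ fun i _ => herr i 1 one_pos).const_mul _
    have e5 := ((e1.add e2).add e3).add e4
    simpa using e5
  have hev : ∀ᶠ w in (c.V : Filter ℕ),
      ∫ x in A, (c.γ * c.VI (Rt c.T) I x - c.VI (Rt c.T) I x ^ 2 / 2) ∂c.μ ≤
      4 * Lm (c.U w) (c.W w) c.μ c.T c.β c.σ c.Dt A +
      c.k * ∑ i, (∫ x, |(c.μ[c.aa i | Rt c.T]) x -
        (c.μ[c.aa i | Inv c.T (c.W w * Dlt c.β)]) x| ∂c.μ +
        ∫ x, |(c.μ[c.aa i | Rt c.T]) x - (c.μ[c.aa i | Inv c.T (c.W w * 1)]) x| ∂c.μ) +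
      (c.k : ℝ) ^ 2 / w + (1 + c.k) * ∑ i, ∫ x, |(c.μ[c.aa i | Rt c.T]) x -
        (c.μ[c.aa i | Inv c.T (c.W w * 1)]) x| ∂c.μ := by
    filter_upwards [(eventually_ge_atTop (max w₀ 1)).filter_mono c.hV, c.gam] with w hw hg
    have hw0 : w₀ ≤ w := (le_max_left _ _).trans hw
    have hw1 : 0 < w := (le_max_right _ _).trans hw
    have hAw : MeasurableSet[Inv c.T (c.W w)] A :=
      inv_mono c.T (Nat.mul_dvd_mul_left _ (Nat.factorial_dvd_factorial hw0)) A hA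
    have h2 := h1 c hk w I A hw1 hg hAw
    have h3 := var_le c.γ c.γ0.le c.γ1 c.μ (fun i => c.μ[c.aa i | Rt c.T])
      (fun i => c.μ[c.aa i | Inv c.T (c.W w)]) (fun i => integrable_condExp)
      (fun i => integrable_condExp) (hcb _ (rt_le c.T))
      (hcb _ (MeasurableSpace.invariants_le _)) I A
    have h4 : ∑ i, ∫ x, |(c.μ[c.aa i | Inv c.T (c.W w * Dlt c.β)]) x -
        (c.μ[c.aa i | Inv c.T (c.W w)]) x| ∂c.μ ≤
        ∑ i, (∫ x, |(c.μ[c.aa i | Rt c.T]) x -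
        (c.μ[c.aa i | Inv c.T (c.W w * Dlt c.β)]) x| ∂c.μ +
        ∫ x, |(c.μ[c.aa i | Rt c.T]) x - (c.μ[c.aa i | Inv c.T (c.W w * 1)]) x| ∂c.μ) := by
      refine Finset.sum_le_sum fun i _ => ?_
      rw [mul_one]
      have ia : Integrable (fun x => |(c.μ[c.aa i | Rt c.T]) x -
        (c.μ[c.aa i | Inv c.T (c.W w * Dlt c.β)]) x|) c.μ :=
        (integrable_condExp.sub integrable_condExp).abs
      have ib : Integrable (fun x => |(c.μ[c.aa i | Rt c.T]) x -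
        (c.μ[c.aa i | Inv c.T (c.W w)]) x|) c.μ :=
        (integrable_condExp.sub integrable_condExp).abs
      have ic : Integrable (fun x => |(c.μ[c.aa i | Inv c.T (c.W w * Dlt c.β)]) x -
        (c.μ[c.aa i | Inv c.T (c.W w)]) x|) c.μ :=
        (integrable_condExp.sub integrable_condExp).abs
      rw [← integral_add ia ib]
      refine integral_mono ic (ia.add ib) fun x => ?_
      have := abs_sub_le ((c.μ[c.aa i | Inv c.T (c.W w * Dlt c.β)]) x)
        ((c.μ[c.aa i | Rt c.T]) x) ((c.μ[c.aa i | Inv c.T (c.W w)]) x)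
      rw [abs_sub_comm ((c.μ[c.aa i | Inv c.T (c.W w * Dlt c.β)]) x)
        ((c.μ[c.aa i | Rt c.T]) x)] at this
      exact this
    have h5 := mul_le_mul_of_nonneg_left h4 (Nat.cast_nonneg (α := ℝ) c.k)
    rw [mul_one] at h5 ⊢
    have h6 : ∫ x in A, (c.γ * c.VI (Rt c.T) I x - c.VI (Rt c.T) I x ^ 2 / 2) ∂c.μ ≤
      ∫ x in A, (c.γ * c.VI (Inv c.T (c.W w)) I x - c.VI (Inv c.T (c.W w)) I x ^ 2 / 2) ∂c.μ +
        (1 + c.k) * ∑ i, ∫ x, |(c.μ[c.aa i | Rt c.T]) x -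
        (c.μ[c.aa i | Inv c.T (c.W w)]) x| ∂c.μ := h3
    linarith
  have hfin := le_of_tendsto_of_tendsto tendsto_const_nhds hRHS hev
  rw [integral_sub (hVR _ (rt_le c.T)).integrableOn (hei.const_mul 4).integrableOn,
    integral_const_mul]
  linarith

theorem part2 (has : T_UAS) (hle : T_ULE) (hra : Pool.Agent.H67.AG.T_RA)
    (c : CxE) (hk : 2 ≤ c.k) (i : Fin c.k) :
    ∀ᵐ x ∂c.μ, x ∈ c.Y → c.γ * (c.μ[c.aa i | Rt c.T]) x ≤ 4 * c.e x := by
  have hmp : MeasurePreserving c.T c.μ c.μ := c.erg.toMeasurePreserving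
  have haam : Measurable (c.aa i) := by
    unfold CxE.aa CxE.Db
    have hm : Measurable (c.μ[c.Dt i | (tow c.μ c.T (c.k - 1)).1]) :=
      (stronglyMeasurable_condExp.mono (tow c.μ c.T (c.k - 1)).2).measurable
    exact measurable_const.sub ((measurable_const.max (measurable_const.min hm)).pow_const 2)
  have haa0 : ∀ x, 0 ≤ c.aa i x ∧ c.aa i x ≤ 1 := by
    intro x
    unfold CxE.aa
    have h2 : -1 ≤ c.Db i x := le_max_left _ _
    have h3 : c.Db i x ≤ 1 := max_le (by norm_num) (min_le_left _ _)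
    constructor <;> nlinarith
  have haai : Integrable (c.aa i) c.μ :=
    int_of_bdd c.μ (c.aa i) haam (fun x => (haa0 x).1) fun x => (haa0 x).2
  have hem : Measurable c.e := c.em.mono (rt_le c.T) le_rfl
  have hei : Integrable c.e c.μ := int_of_bdd c.μ c.e hem (fun x => (c.e0 x).1) fun x => (c.e0 x).2
  have hRm : Measurable[Rt c.T] (fun x => (c.μ[c.aa i | Rt c.T]) x) :=
    stronglyMeasurable_condExp.measurable
  have hYQ : MeasurableSet[Inv c.T c.Q] c.Y :=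
    MeasurableSpace.measurableSet_invariants.2 ⟨c.Ym, c.Yinv⟩
  have key := hra c.X c.μ c.T c.Q
    (fun x => c.γ * (c.μ[c.aa i | Rt c.T]) x - 4 * c.e x) c.Y c.Qpos
    ((hRm.const_mul c.γ).sub (c.em.const_mul 4))
    ((integrable_condExp.const_mul c.γ).sub (hei.const_mul 4)) hYQ ?_
  · filter_upwards [key] with x hx hxY
    have := hx hxY
    linarith
  intro w₀ A hA hAY
  have hAR : MeasurableSet[Rt c.T] A :=
    inv_le_rt c.T (Nat.mul_pos c.Qpos (Nat.factorial_pos w₀)) A hA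
  have hfac : Fac c.μ c.T c.μ c.T (id : c.X → c.X) := ⟨MeasurePreserving.id _, fun _ => rfl⟩
  have hLam := hle c c.X c.μ c.T id A hmp hfac hAR (by simpa using hAY)
  simp only [id] at hLam
  have hev : ∀ᶠ w in (c.V : Filter ℕ), c.γ * ∫ x in A, c.aa i x ∂c.μ ≤
      4 * Lm (c.U w) (c.W w) c.μ c.T c.β c.σ c.Dt A := by
    filter_upwards [(eventually_ge_atTop w₀).filter_mono c.hV, c.gam] with w hw hg
    exact has c hk w i A hg
      (inv_mono c.T (Nat.mul_dvd_mul_left _ (Nat.factorial_dvd_factorial hw)) A hA)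
  have hfin := le_of_tendsto_of_tendsto tendsto_const_nhds (hLam.const_mul 4) hev
  have hce : ∫ x in A, (c.μ[c.aa i | Rt c.T]) x ∂c.μ = ∫ x in A, c.aa i x ∂c.μ :=
    setIntegral_condExp (rt_le c.T) haai hAR
  rw [integral_sub (integrable_condExp.const_mul c.γ).integrableOn
    (hei.const_mul 4).integrableOn, integral_const_mul, integral_const_mul, hce]
  linarith

theorem pf_UA2 (ha1 : T_UA1) (has : T_UAS) (hle : T_ULE) (hra : Pool.Agent.H67.AG.T_RA)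
    (hlv : Pool.Agent.H67.AG.T_LV) : T_UA2 := fun c hk =>
  ⟨fun I => part1 ha1 hle hra hlv c hk I, fun i => part2 has hle hra c hk i⟩

end Pool.Agent.H37.UG
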